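import Pool.Agent.W547.LD.Defs
import Pool.Agent.W530.NF.Defs

/-!
# Tate classes on powers of abelian varieties of CM type over number fields
-/

namespace Pool.Agent.W547.TN

open Pool.Agent.W547.KB Pool.Agent.W547.LD Pool.Agent.W530.NF

/-- `f ∈ H^{2m}(X, ℚ_ℓ(m))` (an alternating form in `2 m` variables on the rational Tate module `V`
of `X`, `K = ℚ_ℓ`) is a Tate class: it is fixed by a subgroup of finite index of the Galois group
`G`, that is, the elements `s` of this subgroup multiply `f` by `χ(s) ^ m`. -/
def IsTateClass {K V G : Type} [Field K] [AddCommGroup V] [Module K V] [Group G]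
    (ρ : Representation K G V) (χ : G →* K) {m : ℕ} (f : V [⋀^Fin (2 * m)]→ₗ[K] K) : Prop :=
  ∃ Δ : Subgroup G, Δ.FiniteIndex ∧ ∀ s ∈ Δ, ∀ v, f (fun k => ρ s (v k)) = χ s ^ m * f v

/-- `γ ∈ G` is the Frobenius element of a place with residue field of `q` elements above a prime
number that splits completely in the CM fields: it acts on `V` by the multiplication by `π`, with
absolute values given by the formula of Shimura and Taniyama, and `χ(γ) = q`. -/
structure IsFrobeniusAt (X : CMAV) {K V G : Type} [Field K] [AddCommGroup V] [Module K V] [Group G]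
    (C : Comparison X K V) (ρ : Representation K G V) (χ : G →* K) (w : AbsoluteValue ℂ ℝ) (q : ℕ)
    (π : X.H1) (γ : G) : Prop where
  ne_zero : q ≠ 0
  lt_one : w q < 1
  shimuraTaniyama : ShimuraTaniyama X w q π
  char_eq : χ γ = q
  apply_eq : ∀ x : X.H1, ρ γ (C.ι x) = C.ι (π * x)

/-- `f` is a linear combination, with coefficients in `K = ℚ_ℓ`, of classes in the ring `DWRing X`
generated by divisors and by pull-backs of split Weil classes on fourfolds and sixfolds. -/
def IsGenerated {X : CMAV} {K V : Type} [Field K] [AddCommGroup V] [Module K V]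
    (C : Comparison X K V) {κ : Type} (f : V [⋀^κ]→ₗ[K] K) : Prop :=
  ∃ (r : ℕ) (c : Fin r → K) (g : Fin r → X.H1 [⋀^κ]→ₗ[ℚ] ℚ), (∀ i, DWRing X κ (g i)) ∧
    ∀ v : κ → X.H1, f (fun k => C.ι (v k)) = ∑ i, c i * (g i v : K)

end Pool.Agent.W547.TN
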