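import Pool.Agent.W547.LD.Main
import Pool.Agent.W530.NF.Main
import Pool.Agent.W547.TN.Defs

/-!
# Tate classes on powers of abelian varieties of CM type over number fields
-/

set_option linter.unusedSectionVars false
set_option linter.unusedVariables false

namespace Pool.Agent.W547.TN

open NumberField Pool.Agent.H204R3.CM Pool.Agent.W547.KB Pool.Agent.W547.LD Pool.Agent.W530.NF
open Equiv Module

noncomputable section

/-- A rational form with values in `K`, multiplied by a constant by a power of the Frobenius
element, is a combination of Hodge classes. -/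
theorem hodge_span (X : CMAV) {K : Type} [Field K] [Algebra ℚ K] {κ : Type}
    [Finite κ] (w : AbsoluteValue ℂ ℝ) (q : ℕ) (hq : q ≠ 0) (hw : w q < 1) (π : X.H1)
    (hπ : ShimuraTaniyama X w q π)
    (N m : ℕ) (hN : N ≠ 0) (hm : Nat.card κ = 2 * m) (f : X.H1 [⋀^κ]→ₗ[ℚ] K)
    (hf : ∀ v : κ → X.H1, f (fun k => π ^ N * v k) = (q : K) ^ (m * N) * f v)
    (B : CMPair) :
    ∃ (n : ℕ) (c : Fin n → K) (g : Fin n → X.H1 [⋀^κ]→ₗ[ℚ] ℚ), (∀ i, IsHodge X.per (g i)) ∧
      ∀ v, f v = ∑ i, g i v • c i := by
  obtain ⟨n, c, g, h1, h2⟩ := span_of_frob B X w q hq hw π hπ N m hN hm f hf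
  exact ⟨n, c, g, fun i => (isHodge_iff B X (g i)).2 (h1 i), h2⟩

theorem tate (A : CMPair) (hA : finrank ℚ A.E ≤ 14) (n : ℕ) {K V G : Type} [Field K] [CharZero K]
    [AddCommGroup V] [Module K V] [Group G] (C : Comparison (power A n) K V)
    (ρ : Representation K G V) (χ : G →* K) (w : AbsoluteValue ℂ ℝ) (q : ℕ) (π : (power A n).H1)
    (γ : G) (h : IsFrobeniusAt (power A n) C ρ χ w q π γ) {m : ℕ}
    (f : V [⋀^Fin (2 * m)]→ₗ[K] K) (hf : IsTateClass ρ χ f) : IsGenerated C f := by
  classical
  let _ : Algebra ℚ K := DivisionRing.toRatAlgebra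
  obtain ⟨Δ, hΔ, hf⟩ := hf
  obtain ⟨N, hN, hNΔ⟩ := exists_pow_mem Δ hΔ γ
  let _ : Module ℚ V := Module.compHom V (algebraMap ℚ K)
  have : IsScalarTower ℚ K V := ⟨fun a b v => by
    rw [Algebra.smul_def, mul_smul]
    rfl⟩
  let ιl : (power A n).H1 →ₗ[ℚ] V := C.ι.toRatLinearMap
  let F : (power A n).H1 [⋀^Fin (2 * m)]→ₗ[ℚ] K :=
    { toFun := fun v => f (fun k => C.ι (v k))
      map_update_add' := by
        intro hd v k a b
        have h1 : ∀ z, (fun k' => C.ι (Function.update v k z k')) =
            Function.update (fun k' => C.ι (v k')) k (C.ι z) := by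
          intro z
          funext k'
          by_cases hk : k' = k
          · subst hk
            rw [Function.update_self, Function.update_self]
          · rw [Function.update_of_ne hk, Function.update_of_ne hk]
        rw [h1, h1, h1, map_add, AlternatingMap.map_update_add]
      map_update_smul' := by
        intro hd v k a b
        have h1 : ∀ z, (fun k' => C.ι (Function.update v k z k')) =
            Function.update (fun k' => C.ι (v k')) k (C.ι z) := by
          intro z
          funext k'
          by_cases hk : k' = k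
          · subst hk
            rw [Function.update_self, Function.update_self]
          · rw [Function.update_of_ne hk, Function.update_of_ne hk]
        have h2 : C.ι (a • b) = (algebraMap ℚ K a) • C.ι b := ιl.map_smul a b
        rw [h1, h1, h2, AlternatingMap.map_update_smul, smul_eq_mul, Algebra.smul_def]
      map_eq_zero_of_eq' := by
        intro v k l hkl hne
        exact f.map_eq_zero_of_eq _ (congrArg C.ι hkl) hne }
  have hF : ∀ v : Fin (2 * m) → (power A n).H1,
      F (fun k => π ^ N * v k) = (q : K) ^ (m * N) * F v := by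
    intro v
    have h1 := hf _ hNΔ (fun k => C.ι (v k))
    simp only [pow_apply C.ι ρ γ h.apply_eq] at h1
    rw [map_pow, h.char_eq, ← pow_mul, mul_comm N m] at h1
    exact h1
  obtain ⟨r, c, g, hg, hsum⟩ := hodge_span (power A n) w q h.ne_zero h.lt_one π h.shimuraTaniyama
    N m hN (by rw [Nat.card_eq_fintype_card, Fintype.card_fin]) F hF A
  refine ⟨r, c, g, fun i => (isHodge_iff_ring A hA n (g i)).1 (hg i), fun v => ?_⟩
  refine (hsum v).trans ?_
  refine Finset.sum_congr rfl fun i _ => ?_
  rw [Algebra.smul_def, eq_ratCast, mul_comm]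

end

end Pool.Agent.W547.TN
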